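import Pool.Agent.H96.N1.Core

/-! # MP_5ee2d0_ag, numerical dimension one: the second Chern class has degree zero on `v` -/

namespace Pool.Agent.H96.N1.Pencil

variable {P : Type} [AddCommGroup P] {T : P → P → P → ℤ} {c : P → ℤ} {Nef : P → Prop}
  {H L : P} {Triv : (P → ℤ) → Prop} {Run : Prop} (S : Pencil T c Nef H L Triv Run)

/-- The inequality of Miyaoka at the threshold. -/
theorem chern_ineq (hT : Cubic T) (hLL : ∀ y, T L L y = 0) {κ : ℤ} {v : P} (hκ : 0 < κ)
    (hZ : S.Zero κ v) (hc : ∀ x y, c (x + y) = c x + c y) (hcL : c L = 0)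
    {D : S.B} (hD : S.Ext D) {x : P} {m : ℤ} (hm : 0 < m) (hx : S.rho D = m • x)
    (hq : 0 < T L x x) (hcx : 0 ≤ c x) : 3 * c v * T L x x ≤ 2 * T v L x * c x := by
  obtain ⟨K, t1, ht1, hthr⟩ := S.thr hT hLL hκ hZ hD hm hx hq
  obtain ⟨k0, hk0⟩ := hD
  obtain ⟨b, e, hbe⟩ := S.miyaoka_zero hκ hZ D k0 hk0
  have hcm : c (m • x) = m * c x := by
    have h := map_zsmul (AddMonoidHom.mk' c hc) m x
    simpa using h
  obtain ⟨A, hA⟩ : ∃ A : ℝ, A = T v L x / (3 * κ * T L x x) := ⟨_, rfl⟩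
  obtain ⟨B, hB⟩ : ∃ B : ℝ, B = T v x x / (2 * κ * T L x x)
    - T v L x * T x x x / (9 * κ * (T L x x : ℝ) ^ 2) := ⟨_, rfl⟩
  rw [← hA, ← hB] at hthr
  have hmR : (0 : ℝ) < m := by exact_mod_cast hm
  have hcR : (0 : ℝ) ≤ c x := by exact_mod_cast hcx
  have hκR : (0 : ℝ) < κ := by exact_mod_cast hκ
  have hlead : 0 ≤ -((m : ℝ) ^ 2 * c v) + 2 * κ * m ^ 2 * A * c x := by
    refine lead2 (b := κ * (m * b + 2 * m * c x * (m * B + S.g * m * T L H H)))
      (c := κ * (e + 2 * m * c x * (m * K + S.g * m * T x H H))) (k1 := t1) fun t ht => ?_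
    obtain ⟨a, -, hnef, ha⟩ := hthr t ht
    have h1 := hbe _ _ hnef
    rw [hcL, mul_zero, zero_add, hx, hcm] at h1
    have h2 : (0 : ℝ) ≤ (-(m * t) ^ 2 * c v + κ * (m * t * b + e
        + 2 * (a + S.g * (m * (t * T L H H + T x H H))) * (m * c x)) : ℤ) := by exact_mod_cast h1
    push_cast at h2
    have h3 := mul_le_mul_of_nonneg_right ha
      (mul_nonneg hκR.le (mul_nonneg (mul_nonneg zero_le_two hmR.le) hcR))
    nlinarith
  have hqR : (0 : ℝ) < T L x x := by exact_mod_cast hq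
  have h4 : 0 ≤ -(c v : ℝ) + 2 * κ * A * c x := by
    have h5 : -((m : ℝ) ^ 2 * c v) + 2 * κ * m ^ 2 * A * c x
        = m ^ 2 * (-(c v : ℝ) + 2 * κ * A * c x) := by ring
    rw [h5] at hlead
    exact nonneg_of_mul_nonneg_right hlead (by positivity)
  have h6 : A * (3 * κ * T L x x) = T v L x := by
    rw [hA]
    field_simp
  have h7 : 0 ≤ 3 * (T L x x : ℝ) * (-(c v : ℝ) + 2 * κ * A * c x) := by positivity
  have h8 : 3 * (T L x x : ℝ) * (-(c v : ℝ) + 2 * κ * A * c x)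
      = -(3 * c v * T L x x) + 2 * T v L x * c x := by
    linear_combination 2 * (c x : ℝ) * h6
  rw [h8] at h7
  have h9 : 3 * (c v : ℝ) * T L x x ≤ 2 * T v L x * c x := by linarith
  exact_mod_cast h9

/-- (E6). For `s > 0`, `x = s v + H`, `rho D = m x`, `P` the nef class of `thr`, the field `miyaoka`
gives, for `t → ∞`, `- c v / κ + 2 A(x) c x ≥ 0`, that is `3 c(v) q(x, x) ≤ 2 q(v, x) c(x)`; then
`s → ∞`. -/
theorem chern (hT : Cubic T) (hLL : ∀ y, T L L y = 0) {κ : ℤ} {v : P} (hκ : 0 < κ)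
    (hZ : S.Zero κ v) (hl : 0 < T L H H) (hb : 0 < T v L H) (hvv : 0 ≤ T v L v)
    (hext : ∀ s : ℤ, 0 < s → ∃ m : ℤ, 0 < m ∧ ∃ D, S.rho D = m • (s • v + H) ∧ S.Ext D)
    (hc : ∀ x y, c (x + y) = c x + c y) (hcL : c L = 0)
    (hpos : ∀ s : ℤ, 0 < s → 0 ≤ c (s • v + H)) : c v = 0 := by
  have hcs : ∀ s : ℤ, c (s • v + H) = s * c v + c H := by
    intro s
    rw [hc]
    have h := map_zsmul (AddMonoidHom.mk' c hc) s v
    simp at h
    rw [h]
  have hLv : T L v v = T v L v := hT.symm12 _ _ _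
  have hLvH : T L v H = T v L H := hT.symm12 _ _ _
  have hLHv : T L H v = T v L H := by rw [hT.symm23, hLvH]
  have hqx : ∀ s : ℤ, T L (s • v + H) (s • v + H) = s ^ 2 * T v L v + 2 * s * T v L H + T L H H := by
    intro s
    simp only [hT.add2, hT.add3, hT.smul2, hT.smul3, hLv, hLvH, hLHv]
    ring
  have hqv : ∀ s : ℤ, T v L (s • v + H) = s * T v L v + T v L H := by
    intro s
    rw [hT.add3, hT.smul3]
  have hineq : ∀ s : ℤ, 0 < s → 3 * c v * (s ^ 2 * T v L v + 2 * s * T v L H + T L H H) ≤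
      2 * (s * T v L v + T v L H) * (s * c v + c H) := by
    intro s hs
    obtain ⟨m, hm, D, hD, hE⟩ := hext s hs
    have hq : 0 < T L (s • v + H) (s • v + H) := by
      rw [hqx]
      positivity
    have h := S.chern_ineq hT hLL hκ hZ hc hcL hE hm hD hq (hpos s hs)
    rwa [hqx, hqv, hcs] at h
  have h0 : 0 ≤ (c v : ℝ) := by
    refine lead1 (c := c H) (k1 := 1) fun s hs => ?_
    have h := hpos s (by omega)
    rw [hcs] at h
    have h' : (0 : ℝ) ≤ (s * c v + c H : ℤ) := by exact_mod_cast h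
    push_cast at h'
    linarith
  have h1 : 0 ≤ -((T v L v : ℝ) * c v) := by
    refine lead2 (b := 2 * T v L v * c H - 4 * T v L H * c v)
      (c := 2 * T v L H * c H - 3 * c v * T L H H) (k1 := 1) fun s hs => ?_
    have h := hineq s (by omega)
    have h' : (3 * c v * (s ^ 2 * T v L v + 2 * s * T v L H + T L H H) : ℝ) ≤
        2 * (s * T v L v + T v L H) * (s * c v + c H) := by exact_mod_cast h
    linarith
  rcases hvv.lt_or_eq with h2 | h2
  · have h3 : (0 : ℝ) < T v L v := by exact_mod_cast h2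
    have h4 : (c v : ℝ) ≤ 0 := by
      by_contra h5
      push Not at h5
      nlinarith
    exact_mod_cast le_antisymm h4 h0
  · have h3 : 0 ≤ -(4 * (T v L H : ℝ) * c v) := by
      refine lead1 (c := 2 * T v L H * c H - 3 * c v * T L H H) (k1 := 1) fun s hs => ?_
      have h := hineq s (by omega)
      rw [← h2] at h
      have h' : (3 * c v * (s ^ 2 * 0 + 2 * s * T v L H + T L H H) : ℝ) ≤
          2 * (s * 0 + T v L H) * (s * c v + c H) := by exact_mod_cast h
      linarith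
    have h4 : (0 : ℝ) < T v L H := by exact_mod_cast hb
    have h5 : (c v : ℝ) ≤ 0 := by
      by_contra h5
      push Not at h5
      nlinarith
    exact_mod_cast le_antisymm h5 h0

end Pool.Agent.H96.N1.Pencil
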